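import Pool.Agent.Helper92.BO.GoalsC

/-!
# AFF: the affine change of coordinates
-/

namespace Pool.Agent.Helper67.BO

open MeasureTheory Finset Pool.Agent.Helper92.BO

/-- The hyperplane of two equal coordinates is a null set. -/
theorem null_eq {n : ℕ} (i j : Fin n) (h : i ≠ j) :
    volume {U : Fin n → ℝ | U i = U j} = 0 := by
  have key : volume ((LinearMap.ker ((LinearMap.proj i : (Fin n → ℝ) →ₗ[ℝ] ℝ) -
      LinearMap.proj j) : Submodule ℝ (Fin n → ℝ)) : Set (Fin n → ℝ)) = 0 := by
    apply Measure.addHaar_submodule
    intro htop
    have h1 : (Pi.single i (1 : ℝ) : Fin n → ℝ) ∈ LinearMap.ker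
        ((LinearMap.proj i : (Fin n → ℝ) →ₗ[ℝ] ℝ) - LinearMap.proj j) := by
      rw [htop]; trivial
    rw [LinearMap.mem_ker] at h1
    simp [Pi.single_apply, h.symm] at h1
  refine measure_mono_null ?_ key
  intro U hU
  have hU' : U i = U j := hU
  show U ∈ LinearMap.ker _
  rw [LinearMap.mem_ker]
  simp [hU']

open Classical in
/-- The diagonal entries. -/
noncomputable def dg {n : ℕ} (I : Finset (Fin n)) (i : Fin n) : ℝ := if i ∈ I then -(1 / 2) else 1 / 2

open Classical in
/-- The translation. -/
noncomputable def tr {n : ℕ} (I : Finset (Fin n)) (i : Fin n) : ℝ := if i ∈ I then 1 else 0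

/-- The linear part. -/
noncomputable def lin {n : ℕ} (I : Finset (Fin n)) : (Fin n → ℝ) →ₗ[ℝ] (Fin n → ℝ) :=
  Matrix.toLin' (Matrix.diagonal (dg I))

theorem lin_apply {n : ℕ} (I : Finset (Fin n)) (U : Fin n → ℝ) (i : Fin n) :
    lin I U i = dg I i * U i := by
  simp [lin, Matrix.toLin'_apply, Matrix.mulVec_diagonal]

theorem abs_dg {n : ℕ} (I : Finset (Fin n)) (i : Fin n) : |dg I i| = 1 / 2 := by
  unfold dg
  split_ifs
  · rw [abs_neg, abs_of_pos (by norm_num : (0 : ℝ) < 1 / 2)]
  · exact abs_of_pos (by norm_num : (0 : ℝ) < 1 / 2)

theorem abs_det {n : ℕ} (I : Finset (Fin n)) : |LinearMap.det (lin I)| = (1 / 2) ^ n := by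
  rw [lin, LinearMap.det_toLin', Matrix.det_diagonal, Finset.abs_prod]
  simp [abs_dg]

theorem det_ne {n : ℕ} (I : Finset (Fin n)) : LinearMap.det (lin I) ≠ 0 := by
  intro h
  have := abs_det I
  rw [h, abs_zero] at this
  exact absurd this.symm (by positivity)

/-- The volume of the preimage. -/
theorem vol_pre {n : ℕ} (I : Finset (Fin n)) (B : Set (Fin n → ℝ)) :
    volume {U : Fin n → ℝ | (fun i => dg I i * U i + tr I i) ∈ B} =
      ENNReal.ofReal (2 ^ n) * volume B := by
  have h1 : {U : Fin n → ℝ | (fun i => dg I i * U i + tr I i) ∈ B} =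
      (lin I) ⁻¹' ((fun y => y + tr I) ⁻¹' B) := by
    ext U
    have : (fun i => dg I i * U i + tr I i) = lin I U + tr I := by
      funext i
      rw [Pi.add_apply, lin_apply]
    simp only [Set.mem_setOf_eq, Set.mem_preimage, this]
  rw [h1, Measure.addHaar_preimage_linearMap volume (det_ne I), measure_preimage_add_right]
  congr 2
  rw [abs_inv, abs_det]
  simp

theorem aff : AffStmt := by
  intro G n I
  by_cases hE : ∃ i ∈ I, ∃ j ∈ I, G.Adj (i : ℕ) (j : ℕ)
  · obtain ⟨i, hi, j, hj, hij⟩ := hE
    have h1 : BI G n I = ∅ := by
      ext x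
      simp only [Set.mem_empty_iff_false, iff_false]
      rintro ⟨_, h2, h3⟩
      have a1 := (h3 i).2 hi
      have a2 := (h3 j).2 hj
      have a3 := h2 i j hij
      linarith
    have hne : i ≠ j := by
      rintro rfl
      exact G.loopless.irrefl _ hij
    have h2 : volume (EI G n I) = 0 := by
      refine measure_mono_null ?_ (null_eq i j hne)
      rintro U ⟨_, h3⟩
      exact le_antisymm (h3 j hj i hij.symm) (h3 i hi j hij)
    rw [h1, PV, h2]
    simp
  · push_neg at hE
    set S : Set (Fin n → ℝ) := {U : Fin n → ℝ | (fun i => dg I i * U i + tr I i) ∈ BI G n I}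
      with hS
    have hsub : S ⊆ EI G n I := by
      rintro U ⟨h1, h2, h3⟩
      have hI : ∀ i ∈ I, 0 ≤ U i ∧ U i ≤ 1 := by
        intro i hi
        have a := h1 i
        have b := (h3 i).2 hi
        simp only [dg, tr, hi, if_true] at a b
        constructor <;> linarith [a.1, a.2]
      have hN : ∀ i, i ∉ I → 0 ≤ U i ∧ U i ≤ 1 := by
        intro i hi
        have a := h1 i
        have b := mt (h3 i).1 hi
        simp only [dg, tr, hi, if_false] at a b
        push_neg at b
        constructor <;> linarith [a.1, a.2]
      refine ⟨fun i => ?_, ?_⟩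
      · by_cases hi : i ∈ I
        · exact hI i hi
        · exact hN i hi
      · intro i hi j hij
        have hj : j ∉ I := fun hj => hE i hi j hj hij
        have a := h2 i j hij
        simp only [dg, tr, hi, hj, if_true, if_false] at a
        linarith
    have hnull : volume (EI G n I \ S) = 0 := by
      have hcov : EI G n I \ S ⊆ (⋃ i : Fin n, {U : Fin n → ℝ | U i = 1}) ∪
          ⋃ i : Fin n, {U : Fin n → ℝ | U i = 0} := by
        rintro U ⟨⟨h1, h2⟩, h3⟩
        by_contra hcon
        simp only [Set.mem_union, Set.mem_iUnion, Set.mem_setOf_eq, not_or, not_exists] at hcon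
        obtain ⟨c1, c0⟩ := hcon
        apply h3
        refine ⟨?_, ?_, ?_⟩
        · intro i
          have a := h1 i
          have b1 := lt_of_le_of_ne a.2 (c1 i)
          have b0 := lt_of_le_of_ne a.1 (Ne.symm (c0 i))
          by_cases hi : i ∈ I
          · simp only [dg, tr, hi, if_true]
            constructor <;> linarith
          · simp only [dg, tr, hi, if_false]
            constructor <;> linarith
        · intro i j hij
          have ai := h1 i
          have aj := h1 j
          by_cases hi : i ∈ I
          · have hj : j ∉ I := fun hj => hE i hi j hj hij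
            have a := h2 i hi j hij
            simp only [dg, tr, hi, hj, if_true, if_false]
            linarith
          · by_cases hj : j ∈ I
            · have a := h2 j hj i hij.symm
              simp only [dg, tr, hi, hj, if_true, if_false]
              linarith
            · simp only [dg, tr, hi, hj, if_false]
              linarith [ai.2, aj.2]
        · intro i
          have a := h1 i
          have b1 := lt_of_le_of_ne a.2 (c1 i)
          by_cases hi : i ∈ I
          · simp only [dg, tr, hi, if_true, iff_true]
            linarith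
          · simp only [dg, tr, hi, if_false, iff_false, not_lt]
            linarith [a.2]
      refine measure_mono_null hcov ?_
      refine measure_union_null ?_ ?_
      · rw [measure_iUnion_null_iff]
        intro i
        rw [volume_pi]
        exact Measure.pi_hyperplane _ i 1
      · rw [measure_iUnion_null_iff]
        intro i
        rw [volume_pi]
        exact Measure.pi_hyperplane _ i 0
    have hvol : volume (EI G n I) = volume S := by
      apply le_antisymm
      · calc volume (EI G n I) ≤ volume (S ∪ (EI G n I \ S)) := by
              apply measure_mono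
              intro U hU
              by_cases h : U ∈ S
              · exact Or.inl h
              · exact Or.inr ⟨hU, h⟩
          _ ≤ volume S + volume (EI G n I \ S) := measure_union_le _ _
          _ = volume S := by rw [hnull, add_zero]
      · exact measure_mono hsub
    rw [PV, hvol, hS, vol_pre, ENNReal.toReal_mul, ENNReal.toReal_ofReal (by positivity),
      ← mul_assoc, ← mul_pow]
    norm_num

end Pool.Agent.Helper67.BO
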